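import Pool.Agent.H309.DF.Stm

/-!
# Drifts which need not vanish on the walls
-/

set_option autoImplicit false

open Set Filter Topology MeasureTheory
open scoped ENNReal

namespace Pool.Agent.H309.DG

open Pool.Agent.Q61.NC Pool.Agent.H309.DF

/-- A drift `w` of class `C²` in `y`, for the times in `I`. -/
structure WF (a : ℝ) (I : Set ℝ) (w wy wyy : ℝ → ℝ → ℝ) : Prop where
  c : ContinuousOn (fun z : ℝ × ℝ => w z.1 z.2) (I ×ˢ Icc (-a) a)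
  cy : ContinuousOn (fun z : ℝ × ℝ => wy z.1 z.2) (I ×ˢ Icc (-a) a)
  cyy : ContinuousOn (fun z : ℝ × ℝ => wyy z.1 z.2) (I ×ˢ Icc (-a) a)
  dy : ∀ t ∈ I, ∀ y ∈ Ioo (-a) a, HasDerivAt (w t) (wy t y) y
  dyy : ∀ t ∈ I, ∀ y ∈ Ioo (-a) a, HasDerivAt (wy t) (wyy t y) y

/-- Product rule and estimate. -/
def ProdW : Prop := ∀ a τ W0 : ℝ, 0 < a → 0 < τ → 0 ≤ W0 →
  ∀ w wy wyy q qt qy qyy : ℝ → ℝ → ℝ, WF a (Icc 0 τ) w wy wyy → Cl a 0 τ q qt qy qyy →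
  (∀ t ∈ Icc 0 τ, ∀ y ∈ Icc (-a) a, |w t y| ≤ W0 ∧ |wy t y| ≤ W0 ∧ |wyy t y| ≤ W0) →
  Src a τ (fun t y => -(w t y * q t y)) (fun t y => -(wy t y * q t y + w t y * qy t y))
    (fun t y => -(wyy t y * q t y + 2 * (wy t y * qy t y) + w t y * qyy t y)) ∧
  ∀ t ∈ Icc 0 τ,
    ∫ y in (-a)..a, (-(wyy t y * q t y + 2 * (wy t y * qy t y) + w t y * qyy t y)) ^ 2 ≤
      (W0 * (2 * a + 1) ^ 2) ^ 2 * ∫ y in (-a)..a, qyy t y ^ 2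

/-- Iteration. -/
def IterW : Prop := ∀ a τ : ℝ, 0 < a → 0 < τ → ∀ V Vt Vy w wy wyy : ℝ → ℝ → ℝ,
  Cl a 0 τ V Vt Vy Vt → WF a (Icc 0 τ) w wy wyy →
  ∃ (Q Qt Qy Qyy : ℕ → ℝ → ℝ → ℝ) (D K : ℝ), QFam a 0 τ V w Q Qt Qy Qyy D K

/-- The family on `[α, β]`. -/
def FamW : Prop := ∀ a α β : ℝ, 0 < a → 0 < α → α < β → ∀ f : ℝ → ℝ,
  ∀ V Vt Vy W Wy Wyy : ℝ → ℝ → ℝ, OddFlow a f V Vt Vy → WF a (Icc α β) W Wy Wyy →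
  ∃ (Q Qt Qy Qyy : ℕ → ℝ → ℝ → ℝ) (D K : ℝ), QFam a α β V W Q Qt Qy Qyy D K

/-- The drifted solution. -/
def DriftW : Prop := ∀ a b T : ℝ, 0 < a → 0 < b → 0 < T → ∀ f : ℝ → ℝ,
  ∀ V Vt Vy W Wy Wyy : ℝ → ℝ → ℝ, OddFlow a f V Vt Vy → WF a (Ioi 0) W Wy Wyy →
  ∃ A At Ay Ayy Az Azz : ℝ → ℝ → ℝ → ℝ, Drift a b T V Vy W A At Ay Ayy Az Azz

end Pool.Agent.H309.DG
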