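import Pool.Agent.H309.DG.Traj
import Pool.Agent.H309.DF.EnergyS
import Pool.Agent.H309.DF.LimAdd

/-! # Energy up to a finite time, and the initial value -/

set_option autoImplicit false

open Set Filter Topology MeasureTheory
open scoped ENNReal

namespace Pool.Agent.H309.DG.LEnergyT

open Pool.Agent.Q61.NC Pool.Agent.H309.DF Pool.Agent.H309.DG Pool.Agent.H309.DF.LEnergyS

theorem tEnergyT (hBox : Pool.Agent.H309.DF.BoxInt) {a b T₀ T₁ : ℝ} (ha : 0 < a) (hb : 0 < b)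
    (hT₀ : 0 < T₀) {n : ℕ} (D : Fin 3 → ℝ → Sp 3 → Sp 3) (P : Fin n → ℝ → ℝ → ℝ)
    (hD : ∀ i, ContinuousOn (fun z : ℝ × Sp 3 => D i z.1 z.2) (Ioi 0 ×ˢ box a b))
    (hP : ∀ k, ContinuousOn (fun z : ℝ × ℝ => P k z.1 z.2) (Ioi 0 ×ˢ Icc (-a) a))
    (hPe : ∀ k, ∫⁻ t in Ioc 0 T₁, ∫⁻ y in Icc (-a) a, ‖P k t y‖ₑ ^ 2 < ⊤)
    (hDP : ∀ t, 0 < t → t ≤ T₀ → ∀ x ∈ box a b,
      ∑ i, ‖D i t x‖ₑ ^ 2 ≤ 4 * ∑ k, ‖P k t (x 1)‖ₑ ^ 2) :
    ∫⁻ t in Ioc 0 T₁, ∫⁻ x in box a b, ∑ i, ‖D i t x‖ₑ ^ 2 < ⊤ := by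
  obtain ⟨c, hc, hG⟩ := hBox a b ha hb
  have hbm : MeasurableSet (box a b) := (box_closed a b).measurableSet
  have hvol : volume (box a b) ≠ ⊤ := (box_compact a b).measure_lt_top.ne
  -- the bound on the middle part
  have hmid : ∀ i : Fin 3, ∃ C : ℝ, ∀ z ∈ Icc T₀ T₁ ×ˢ box a b, ‖D i z.1 z.2‖ ≤ C := by
    intro i
    refine (isCompact_Icc.prod (box_compact a b)).exists_bound_of_continuousOn ((hD i).mono ?_)
    rintro z ⟨hz1, hz2⟩
    exact ⟨lt_of_lt_of_le hT₀ hz1.1, hz2⟩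
  choose C hC using hmid
  set K : ℝ≥0∞ := ∑ i, (ENNReal.ofReal (C i)) ^ 2 with hK
  have hKt : K ≠ ⊤ := by
    rw [hK]
    exact (ENNReal.sum_lt_top.2 fun i _ => ENNReal.pow_lt_top ENNReal.ofReal_lt_top).ne
  set F₁ : ℝ → ℝ≥0∞ := fun t => c * (4 * ∑ k, ∫⁻ y in Icc (-a) a, ‖P k t y‖ₑ ^ 2) with hF₁
  set F₂ : ℝ → ℝ≥0∞ := (Icc T₀ T₁).indicator fun _ => K * volume (box a b) with hF₂
  have hF₂m : Measurable F₂ := measurable_const.indicator measurableSet_Icc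
  -- measurability of the slices
  have hslice : ∀ k t, 0 < t → AEMeasurable (fun y => ‖P k t y‖ₑ ^ 2) (volume.restrict (Icc (-a) a)) := by
    intro k t ht
    have h1 : ContinuousOn (fun y => P k t y) (Icc (-a) a) :=
      (hP k).comp (f := fun y : ℝ => ((t, y) : ℝ × ℝ)) (by fun_prop) fun y hy => ⟨ht, hy⟩
    exact ((h1.aemeasurable measurableSet_Icc).enorm).pow_const 2
  have hpar : ∀ k, AEMeasurable (fun t => ∫⁻ y in Icc (-a) a, ‖P k t y‖ₑ ^ 2)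
      (volume.restrict (Ioc 0 T₁)) := by
    intro k
    have h1 : AEMeasurable (fun z : ℝ × ℝ => ‖P k z.1 z.2‖ₑ ^ 2)
        (((volume : Measure ℝ).restrict (Ioi (0 : ℝ))).prod ((volume : Measure ℝ).restrict (Icc (-a) a))) := by
      rw [Measure.prod_restrict]
      exact (((hP k).aemeasurable (measurableSet_Ioi.prod measurableSet_Icc)).enorm).pow_const 2
    exact h1.lintegral_prod_right'.mono_measure
      (Measure.restrict_mono (fun t ht => ht.1) le_rfl)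
  have hbound : ∀ t ∈ Ioc (0 : ℝ) T₁, ∫⁻ x in box a b, ∑ i, ‖D i t x‖ₑ ^ 2 ≤ F₁ t + F₂ t := by
    intro t ht
    have ht' : 0 < t := ht.1
    rcases le_or_gt t T₀ with h | h
    · refine le_trans ?_ le_self_add
      set H : ℝ → ℝ≥0∞ := fun y => 4 * ∑ k, ‖P k t y‖ₑ ^ 2 with hH
      have hHm : AEMeasurable H (volume.restrict (Icc (-a) a)) :=
        (Finset.aemeasurable_fun_sum _ fun k _ => hslice k t ht').const_mul 4
      calc ∫⁻ x in box a b, ∑ i, ‖D i t x‖ₑ ^ 2 ≤ ∫⁻ x in box a b, H (x 1) :=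
            setLIntegral_mono' hbm fun x hx => hDP t ht' h x hx
        _ ≤ c * ∫⁻ y in Icc (-a) a, H y := hG H hHm
        _ = F₁ t := by
            rw [hH, hF₁]
            simp only
            rw [lintegral_const_mul' _ _ (by norm_num), lintegral_finsetSum' _ fun k _ => hslice k t ht']
    · refine le_trans ?_ le_add_self
      have h1 : t ∈ Icc T₀ T₁ := ⟨h.le, ht.2⟩
      have h2 : F₂ t = K * volume (box a b) := by
        rw [hF₂]
        exact indicator_of_mem h1 _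
      rw [h2, ← setLIntegral_const]
      refine setLIntegral_mono' hbm fun x hx => ?_
      refine Finset.sum_le_sum fun i _ => ?_
      have h3 := hC i (t, x) ⟨h1, hx⟩
      have h4 : ‖D i t x‖ₑ ≤ ENNReal.ofReal (C i) := by
        rw [← ofReal_norm]
        exact ENNReal.ofReal_le_ofReal h3
      exact pow_le_pow_left' h4 2
  refine lt_of_le_of_lt (setLIntegral_mono' measurableSet_Ioc hbound) ?_
  rw [lintegral_add_right _ hF₂m, ENNReal.add_lt_top]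
  constructor
  · rw [hF₁, lintegral_const_mul' _ _ hc, lintegral_const_mul' _ _ (by norm_num),
      lintegral_finsetSum' _ fun k _ => hpar k]
    refine ENNReal.mul_lt_top hc.lt_top (ENNReal.mul_lt_top (by norm_num) ?_)
    exact ENNReal.sum_lt_top.2 fun k _ => hPe k
  · refine lt_of_le_of_lt (lintegral_mono' Measure.restrict_le_self le_rfl) ?_
    rw [hF₂, lintegral_indicator_const measurableSet_Icc, Real.volume_Icc]
    exact ENNReal.mul_lt_top (ENNReal.mul_lt_top hKt.lt_top hvol.lt_top) ENNReal.ofReal_lt_top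

/-- Sum of two initial values. -/
theorem limSum {a : ℝ} {f g h : ℝ → ℝ} (hf : AEMeasurable f (volume.restrict (Icc (-a) a)))
    (e : ∀ y, h y = f y + g y) {P Q : ℝ → ℝ → ℝ}
    (hP : ∀ t, 0 < t → ContinuousOn (P t) (Icc (-a) a))
    (h1 : Tendsto (fun t : ℝ => ∫⁻ y in Icc (-a) a, ‖P t y - f y‖ₑ ^ 2) (𝓝[>] 0) (𝓝 0))
    (h2 : Tendsto (fun t : ℝ => ∫⁻ y in Icc (-a) a, ‖Q t y - g y‖ₑ ^ 2) (𝓝[>] 0) (𝓝 0)) :
    Tendsto (fun t : ℝ => ∫⁻ y in Icc (-a) a, ‖(P t y + Q t y) - h y‖ₑ ^ 2) (𝓝[>] 0) (𝓝 0) := by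
  have hmeas : ∀ t, 0 < t → AEMeasurable (fun y => 2 * ‖P t y - f y‖ₑ ^ 2)
        (volume.restrict (Icc (-a) a)) := by
    intro t ht
    exact ((((hP t ht).aemeasurable measurableSet_Icc).sub hf).enorm.pow_const 2).const_mul 2
  have hlim : Tendsto (fun t : ℝ =>
      2 * (∫⁻ y in Icc (-a) a, ‖P t y - f y‖ₑ ^ 2) +
      2 * (∫⁻ y in Icc (-a) a, ‖Q t y - g y‖ₑ ^ 2)) (𝓝[>] 0) (𝓝 0) := by
    have h5 := (ENNReal.Tendsto.const_mul h1 (Or.inr (by norm_num : (2 : ℝ≥0∞) ≠ ⊤))).add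
      (ENNReal.Tendsto.const_mul h2 (Or.inr (by norm_num : (2 : ℝ≥0∞) ≠ ⊤)))
    simpa using h5
  refine tendsto_of_tendsto_of_tendsto_of_le_of_le' tendsto_const_nhds hlim
    (Eventually.of_forall fun _ => bot_le) ?_
  filter_upwards [self_mem_nhdsWithin] with t ht
  calc ∫⁻ y in Icc (-a) a, ‖(P t y + Q t y) - h y‖ₑ ^ 2
      ≤ ∫⁻ y in Icc (-a) a, (2 * ‖P t y - f y‖ₑ ^ 2 + 2 * ‖Q t y - g y‖ₑ ^ 2) := by
        refine lintegral_mono fun y => ?_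
        have e' : P t y + Q t y - h y = (P t y - f y) + (Q t y - g y) := by rw [e]; ring
        show ‖P t y + Q t y - h y‖ₑ ^ 2 ≤ _
        rw [e']
        exact Pool.Agent.H309.DF.LLimAdd.two _ _
    _ = (∫⁻ y in Icc (-a) a, 2 * ‖P t y - f y‖ₑ ^ 2) +
          ∫⁻ y in Icc (-a) a, 2 * ‖Q t y - g y‖ₑ ^ 2 :=
        lintegral_add_left' (hmeas t ht) _
    _ = _ := by
        rw [lintegral_const_mul' _ _ (by norm_num), lintegral_const_mul' _ _ (by norm_num)]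

/-- The components. -/
theorem comp_le (v : Sp 3) (m : Fin 3) : ‖v m‖ₑ ^ 2 ≤ ‖v‖ₑ ^ 2 := by
  have h : ‖v m‖ₑ ≤ ‖v‖ₑ := by
    rw [← ofReal_norm, ← ofReal_norm]
    exact ENNReal.ofReal_le_ofReal (PiLp.norm_apply_le v m)
  exact pow_le_pow_left' h 2

theorem limComp {a : ℝ} {V : ℝ → ℝ → Sp 3} {U : ℝ → Sp 3} (m : Fin 3)
    (h : Tendsto (fun t => ∫⁻ y in Icc (-a) a, ‖V t y - U y‖ₑ ^ 2) (𝓝[>] 0) (𝓝 0)) :
    Tendsto (fun t : ℝ => ∫⁻ y in Icc (-a) a, ‖V t y m - U y m‖ₑ ^ 2) (𝓝[>] 0) (𝓝 0) := by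
  refine tendsto_of_tendsto_of_tendsto_of_le_of_le tendsto_const_nhds h
    (fun _ => bot_le) fun t => lintegral_mono fun y => ?_
  exact comp_le (V t y - U y) m

theorem enComp {a T : ℝ} {V : ℝ → ℝ → Sp 3} (m : Fin 3)
    (h : ∫⁻ t in Ioc 0 T, ∫⁻ y in Icc (-a) a, ‖V t y‖ₑ ^ 2 < ⊤) :
    ∫⁻ t in Ioc 0 T, ∫⁻ y in Icc (-a) a, ‖V t y m‖ₑ ^ 2 < ⊤ :=
  lt_of_le_of_lt (lintegral_mono fun _ => lintegral_mono fun _ => comp_le _ m) h

end Pool.Agent.H309.DG.LEnergyT
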