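import Pool.Agent.H309.DG.Defs

/-!
# Project DF, leaf L12 ProdS (helper976)
-/

set_option autoImplicit false

open Set Filter Topology MeasureTheory
open scoped ENNReal

namespace Pool.Agent.H309.DG.LProdW

open Pool.Agent.H309.DF Pool.Agent.H309.DG

theorem ft_bound {a : ℝ} (ha : 0 < a) {f f' : ℝ → ℝ} (hf : ContinuousOn f (Icc (-a) a))
    (hf' : ContinuousOn f' (Icc (-a) a)) (hd : ∀ y ∈ Ioo (-a) a, HasDerivAt f (f' y) y)
    {x y : ℝ} (hx : x ∈ Icc (-a) a) (hy : y ∈ Icc (-a) a) :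
    |f y - f x| ≤ ∫ s in (-a)..a, |f' s| := by
  have hsub : uIcc x y ⊆ Icc (-a) a := uIcc_subset_Icc hx hy
  have hIoo : Ioo (min x y) (max x y) ⊆ Ioo (-a) a :=
    Ioo_subset_Ioo (le_min hx.1 hy.1) (max_le hx.2 hy.2)
  have hint : IntervalIntegrable f' volume x y := (hf'.mono hsub).intervalIntegrable
  have h1 : ∫ s in x..y, f' s = f y - f x :=
    intervalIntegral.integral_eq_sub_of_hasDeriv_right (hf.mono hsub)
      (fun s hs => (hd s (hIoo hs)).hasDerivWithinAt) hint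
  rw [← h1]
  have h2 : |(∫ s in x..y, f' s)| ≤ |(∫ s in x..y, |f' s|)| :=
    intervalIntegral.norm_integral_le_abs_integral_norm (f := f') (a := x) (b := y) (μ := volume)
  have hintA : IntervalIntegrable (fun s => |f' s|) volume (-a) a := by
    apply ContinuousOn.intervalIntegrable
    rw [uIcc_of_le (by linarith)]
    exact hf'.abs
  have h3 : |(∫ s in x..y, |f' s|)| ≤ |(∫ s in (-a)..a, |f' s|)| := by
    apply intervalIntegral.abs_integral_mono_interval
    · rw [uIoc_of_le (by linarith : -a ≤ a)]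
      exact Ioc_subset_Ioc (le_min hx.1 hy.1) (max_le hx.2 hy.2)
    · exact Eventually.of_forall fun s => abs_nonneg _
    · exact hintA
  have h4 : 0 ≤ ∫ s in (-a)..a, |f' s| :=
    intervalIntegral.integral_nonneg (by linarith) fun s _ => abs_nonneg _
  rw [abs_of_nonneg h4] at h3
  exact h2.trans h3

theorem quad {a : ℝ} (ha : 0 < a) {h : ℝ → ℝ} (hh : ContinuousOn h (Icc (-a) a)) (A B : ℝ) :
    ∫ s in (-a)..a, (A * |h s| + B) ^ 2 = A ^ 2 * (∫ s in (-a)..a, h s ^ 2) +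
      2 * A * B * (∫ s in (-a)..a, |h s|) + 2 * a * B ^ 2 := by
  have hle : -a ≤ a := by linarith
  have i1 : IntervalIntegrable (fun s => |h s|) volume (-a) a := by
    apply ContinuousOn.intervalIntegrable
    rw [uIcc_of_le hle]
    exact hh.abs
  have i2 : IntervalIntegrable (fun s => h s ^ 2) volume (-a) a := by
    apply ContinuousOn.intervalIntegrable
    rw [uIcc_of_le hle]
    exact hh.pow 2
  have e : (fun s => (A * |h s| + B) ^ 2) =
      fun s => A ^ 2 * h s ^ 2 + 2 * A * B * |h s| + B ^ 2 := by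
    funext s
    rw [← sq_abs (h s)]
    ring
  rw [e, intervalIntegral.integral_add ((i2.const_mul _).add (i1.const_mul _))
    intervalIntegrable_const, intervalIntegral.integral_add (i2.const_mul _) (i1.const_mul _),
    intervalIntegral.integral_const_mul, intervalIntegral.integral_const_mul,
    intervalIntegral.integral_const, smul_eq_mul]
  ring

theorem cs {a : ℝ} (ha : 0 < a) {h : ℝ → ℝ} (hh : ContinuousOn h (Icc (-a) a)) :
    (∫ s in (-a)..a, |h s|) ^ 2 ≤ 2 * a * ∫ s in (-a)..a, h s ^ 2 := by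
  obtain ⟨K, hK⟩ : ∃ K : ℝ, K = ∫ s in (-a)..a, |h s| := ⟨_, rfl⟩
  have h1 : 0 ≤ ∫ s in (-a)..a, (2 * a * |h s| + -K) ^ 2 :=
    intervalIntegral.integral_nonneg (by linarith) fun s _ => sq_nonneg _
  rw [quad ha hh, ← hK] at h1
  rw [← hK]
  have h2 : 0 ≤ 2 * a * (2 * a * (∫ s in (-a)..a, h s ^ 2) - K ^ 2) := by linarith
  have h3 := (mul_nonneg_iff_of_pos_left (by linarith : 0 < 2 * a)).1 h2
  linarith

theorem est {a : ℝ} (ha : 0 < a) {W0 : ℝ} (hW0 : 0 ≤ W0) {g gy gyy w wy wyy : ℝ → ℝ}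
    (cg : ContinuousOn g (Icc (-a) a)) (cgy : ContinuousOn gy (Icc (-a) a))
    (cgyy : ContinuousOn gyy (Icc (-a) a)) (dg : ∀ y ∈ Ioo (-a) a, HasDerivAt g (gy y) y)
    (dgy : ∀ y ∈ Ioo (-a) a, HasDerivAt gy (gyy y) y) (h1 : g a = 0) (h2 : g (-a) = 0)
    (cw : ContinuousOn w (Icc (-a) a)) (cwy : ContinuousOn wy (Icc (-a) a))
    (cwyy : ContinuousOn wyy (Icc (-a) a))
    (hb : ∀ y ∈ Icc (-a) a, |w y| ≤ W0 ∧ |wy y| ≤ W0 ∧ |wyy y| ≤ W0) :
    ∫ y in (-a)..a, (-(wyy y * g y + 2 * (wy y * gy y) + w y * gyy y)) ^ 2 ≤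
      (W0 * (2 * a + 1) ^ 2) ^ 2 * ∫ y in (-a)..a, gyy y ^ 2 := by
  have hle : -a ≤ a := by linarith
  obtain ⟨K, hK⟩ : ∃ K : ℝ, K = ∫ s in (-a)..a, |gyy s| := ⟨_, rfl⟩
  obtain ⟨I, hI⟩ : ∃ I : ℝ, I = ∫ s in (-a)..a, gyy s ^ 2 := ⟨_, rfl⟩
  have hK0 : 0 ≤ K := by
    rw [hK]
    exact intervalIntegral.integral_nonneg hle fun s _ => abs_nonneg _
  have hKI : K ^ 2 ≤ 2 * a * I := by
    rw [hK, hI]
    exact cs ha cgyy
  obtain ⟨y₀, hy₀, hgy₀⟩ := exists_hasDerivAt_eq_zero (by linarith : -a < a) cg (by rw [h1, h2]) dg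
  have b1 : ∀ y ∈ Icc (-a) a, |gy y| ≤ K := by
    intro y hy
    have h3 := ft_bound ha cgy cgyy dgy (Ioo_subset_Icc_self hy₀) hy
    rwa [hgy₀, sub_zero, ← hK] at h3
  have b2 : ∀ y ∈ Icc (-a) a, |g y| ≤ 2 * a * K := by
    intro y hy
    have h3 := ft_bound ha cg cgy dg (left_mem_Icc.2 hle) hy
    rw [h2, sub_zero] at h3
    refine h3.trans ?_
    have i1 : IntervalIntegrable (fun s => |gy s|) volume (-a) a := by
      apply ContinuousOn.intervalIntegrable
      rw [uIcc_of_le hle]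
      exact cgy.abs
    have h4 := intervalIntegral.integral_mono_on hle i1 intervalIntegrable_const (fun s hs => b1 s hs)
    rw [intervalIntegral.integral_const, smul_eq_mul] at h4
    linarith
  have pt : ∀ y ∈ Icc (-a) a, (-(wyy y * g y + 2 * (wy y * gy y) + w y * gyy y)) ^ 2 ≤
      (W0 * |gyy y| + W0 * ((2 * a + 2) * K)) ^ 2 := by
    intro y hy
    obtain ⟨hw, hwy, hwyy⟩ := hb y hy
    have h3 : |wyy y * g y + 2 * (wy y * gy y) + w y * gyy y| ≤
        W0 * |gyy y| + W0 * ((2 * a + 2) * K) := by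
      have t1 : |wyy y * g y| ≤ W0 * (2 * a * K) := by
        rw [abs_mul]
        exact mul_le_mul hwyy (b2 y hy) (abs_nonneg _) hW0
      have t2 : |2 * (wy y * gy y)| ≤ 2 * (W0 * K) := by
        rw [abs_mul, abs_two, abs_mul]
        exact mul_le_mul_of_nonneg_left (mul_le_mul hwy (b1 y hy) (abs_nonneg _) hW0) zero_le_two
      have t3 : |w y * gyy y| ≤ W0 * |gyy y| := by
        rw [abs_mul]
        exact mul_le_mul_of_nonneg_right hw (abs_nonneg _)
      calc |wyy y * g y + 2 * (wy y * gy y) + w y * gyy y|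
          ≤ |wyy y * g y + 2 * (wy y * gy y)| + |w y * gyy y| := abs_add_le _ _
        _ ≤ |wyy y * g y| + |2 * (wy y * gy y)| + |w y * gyy y| :=
            add_le_add_left (abs_add_le _ _) _
        _ ≤ W0 * (2 * a * K) + 2 * (W0 * K) + W0 * |gyy y| := by linarith
        _ = W0 * |gyy y| + W0 * ((2 * a + 2) * K) := by ring
    rw [neg_sq, ← sq_abs (wyy y * g y + 2 * (wy y * gy y) + w y * gyy y)]
    exact pow_le_pow_left₀ (abs_nonneg _) h3 2
  have i3 : IntervalIntegrable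
      (fun y => (-(wyy y * g y + 2 * (wy y * gy y) + w y * gyy y)) ^ 2) volume (-a) a := by
    apply ContinuousOn.intervalIntegrable
    rw [uIcc_of_le hle]
    exact ((((cwyy.mul cg).add (continuousOn_const.mul (cwy.mul cgy))).add (cw.mul cgyy)).neg).pow 2
  have i4 : IntervalIntegrable
      (fun y => (W0 * |gyy y| + W0 * ((2 * a + 2) * K)) ^ 2) volume (-a) a := by
    apply ContinuousOn.intervalIntegrable
    rw [uIcc_of_le hle]
    exact ((continuousOn_const.mul cgyy.abs).add continuousOn_const).pow 2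
  have h5 := intervalIntegral.integral_mono_on hle i3 i4 pt
  refine h5.trans ?_
  rw [quad ha cgyy, ← hK, ← hI]
  have e1 : W0 ^ 2 * I + 2 * W0 * (W0 * ((2 * a + 2) * K)) * K +
      2 * a * (W0 * ((2 * a + 2) * K)) ^ 2 =
      W0 ^ 2 * (I + (2 * (2 * a + 2) + 2 * a * (2 * a + 2) ^ 2) * K ^ 2) := by ring
  have e2 : (W0 * (2 * a + 1) ^ 2) ^ 2 * I =
      W0 ^ 2 * (I + (2 * (2 * a + 2) + 2 * a * (2 * a + 2) ^ 2) * (2 * a * I)) := by ring
  rw [e1, e2]
  have hc : 0 ≤ 2 * (2 * a + 2) + 2 * a * (2 * a + 2) ^ 2 := by positivity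
  exact mul_le_mul_of_nonneg_left (add_le_add_right (mul_le_mul_of_nonneg_left hKI hc) _)
    (sq_nonneg _)

theorem slice {a τ : ℝ} {f : ℝ → ℝ → ℝ}
    (hf : ContinuousOn (fun z : ℝ × ℝ => f z.1 z.2) (Icc 0 τ ×ˢ Icc (-a) a)) {t : ℝ}
    (ht : t ∈ Icc 0 τ) : ContinuousOn (f t) (Icc (-a) a) := by
  have h1 : ContinuousOn (fun y : ℝ => ((t, y) : ℝ × ℝ)) (Icc (-a) a) := by fun_prop
  exact hf.comp h1 fun y hy => ⟨ht, hy⟩

theorem tProdW : Pool.Agent.H309.DG.ProdW := by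
  intro a τ W0 ha hτ hW0 w wy wyy q qt qy qyy hw hq hb
  refine ⟨⟨?_, ?_, ?_, ?_, ?_, ?_⟩, ?_⟩
  · exact (hw.c.mul hq.c).neg
  · exact ((hw.cy.mul hq.c).add (hw.c.mul hq.cy)).neg
  · exact (((hw.cyy.mul hq.c).add (continuousOn_const.mul (hw.cy.mul hq.cy))).add
      (hw.c.mul hq.cyy)).neg
  · intro t ht y hy
    exact ((hw.dy t ht y hy).mul (hq.dy t ht y hy)).neg
  · intro t ht y hy
    have h := (((hw.dyy t ht y hy).mul (hq.dy t ht y hy)).add
      ((hw.dy t ht y hy).mul (hq.dyy t ht y hy))).neg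
    have e : -(wyy t y * q t y + wy t y * qy t y + (wy t y * qy t y + w t y * qyy t y)) =
        -(wyy t y * q t y + 2 * (wy t y * qy t y) + w t y * qyy t y) := by ring
    rw [e] at h
    exact h
  · intro t ht
    obtain ⟨h1, h2⟩ := hq.wall t ht
    constructor
    · show -(w t a * q t a) = 0
      rw [h1, mul_zero, neg_zero]
    · show -(w t (-a) * q t (-a)) = 0
      rw [h2, mul_zero, neg_zero]
  · intro t ht
    obtain ⟨h1, h2⟩ := hq.wall t ht
    exact est ha hW0 (slice hq.c ht) (slice hq.cy ht) (slice hq.cyy ht) (hq.dy t ht) (hq.dyy t ht)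
      h1 h2 (slice hw.c ht) (slice hw.cy ht) (slice hw.cyy ht) (fun y hy => hb t ht y hy)

end Pool.Agent.H309.DG.LProdW
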