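import Pool.Agent.H309.DG.MainT
import Pool.Agent.H309.DG.ProdW
import Pool.Agent.H309.DG.IterW
import Pool.Agent.H309.DG.FamW
import Pool.Agent.H309.DG.DriftW
import Pool.Agent.H309.DF.Fin

/-!
# Shear flows are steered to shear trajectories
-/

set_option autoImplicit false

namespace Pool.Agent.H309.DG

open Pool.Agent.H309.DF

theorem famW_holds : FamW :=
  LFamW.tFamW (LIterW.tIterW
    (LStep.tStep LCoSecond.tCoSecond LCoExpand.tCoExpand LCoBessel.tCoBessel LSqSeries.tSqSeries
      LCoCont.tCoCont LDuFacts.tDuFacts (LStepCoef.tStepCoef LDuFacts.tDuFacts LMink.tMink)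
      LSeriesCl.tSeriesCl) LProdW.tProdW LSupB.tSupB)

theorem driftW_holds : DriftW :=
  LDriftW.tDriftW famW_holds LSwitchFam.tSwitchFam LSumCont.tSumCont LSumDer.tSumDer

theorem all_steer : Pool.Agent.H309.DG.Main :=
  mainT driftW_holds (LInitS.tInitS LBoxInt.tBoxInt) LLimAdd.tLimAdd LBoxInt.tBoxInt

end Pool.Agent.H309.DG
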