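import Pool.Agent.H309.DG.EnergyT
import Pool.Agent.H309.DF.InitS

/-!
# The flow steered to a shear trajectory: assembly
-/

set_option autoImplicit false

open Set Filter Topology MeasureTheory
open scoped ENNReal

namespace Pool.Agent.H309.DG

open Pool.Agent.Q61.NC Pool.Agent.H309.DF

theorem mainT (h1 : DriftW) (h2 : InitS) (h3 : LimAdd) (hBox : BoxInt) : Main := by
  intro a b T ha hb hT U₀ h0 hU V G hVG
  obtain ⟨U₁, Vt, Vy, Vyy, hU1, hV1, cV, cVt, cVy, cVyy, cG, dVt, dVy, dVyy, hVeq, hVlim, hVen⟩ := hVG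
  have hT2 : 0 < T / 2 := by linarith
  have hT4 : 0 < T / 4 := by linarith
  have e24 : T / 2 / 2 = T / 4 := by ring
  -- the components of the target
  have hproj : ∀ m : Fin 3, Continuous fun x : Sp 3 => x m := fun m =>
    (EuclideanSpace.proj m : Sp 3 →L[ℝ] ℝ).continuous
  have cc : ∀ (m : Fin 3) {F : ℝ → ℝ → Sp 3},
      ContinuousOn (fun z : ℝ × ℝ => F z.1 z.2) (Ioi 0 ×ˢ Icc (-a) a) →
      ContinuousOn (fun z : ℝ × ℝ => F z.1 z.2 m) (Ioi 0 ×ˢ Icc (-a) a) := fun m F h =>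
    (hproj m).comp_continuousOn h
  have cd : ∀ (m : Fin 3) {F : ℝ → Sp 3} {F' : Sp 3} {t : ℝ}, HasDerivAt F F' t →
      HasDerivAt (fun s => F s m) (F' m) t := fun m F F' t h =>
    (EuclideanSpace.proj m : Sp 3 →L[ℝ] ℝ).hasFDerivAt.comp_hasDerivAt t h
  -- the difference of the data
  set d : ℝ → Sp 3 := fun y => U₀ y - U₁ y with hd
  have hdL : MemLp d 2 (volume.restrict (Icc (-a) a)) := hU.sub hU1
  have hUk : ∀ m, MemLp (fun y => d y m) 2 (volume.restrict (Icc (-a) a)) := fun m =>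
    (EuclideanSpace.proj m : Sp 3 →L[ℝ] ℝ).comp_memLp' hdL
  have hneg : MeasurePreserving (fun y : ℝ => -y) (volume.restrict (Icc (-a) a))
      (volume.restrict (Icc (-a) a)) := by
    have h1 := (Measure.measurePreserving_neg (volume : Measure ℝ)).restrict_preimage
      (s := Icc (-a) a) measurableSet_Icc
    have h2 : (Neg.neg : ℝ → ℝ) ⁻¹' Icc (-a) a = Icc (-a) a := by
      ext y
      simp only [mem_preimage, mem_Icc]
      constructor
      · rintro ⟨h3, h4⟩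
        constructor <;> linarith
      · rintro ⟨h3, h4⟩
        constructor <;> linarith
    rw [h2] at h1
    exact h1
  have hfm : ∀ m, MemLp (fun y => (d y m + d (-y) m) / 2) 2
      (volume.restrict (Icc (-a) a)) := by
    intro m
    have h1 := ((hUk m).add ((hUk m).comp_measurePreserving hneg)).const_mul (1 / 2)
    refine (memLp_congr_ae (Eventually.of_forall fun y => ?_)).1 h1
    show 1 / 2 * (d y m + d (-y) m) = (d y m + d (-y) m) / 2
    ring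
  have hev : ∀ m, ∀ y ∈ Icc (-a) a, (d (-y) m + d (- -y) m) / 2 = (d y m + d (-y) m) / 2 := by
    intro m y _
    rw [neg_neg]
    ring
  obtain ⟨X, Xt, Xy, Xyy, g, hX, hXa, hXa', -⟩ := flowA ha hT4 (hfm 0) (hev 0)
  obtain ⟨Z, Zt, Zy, Zyy, k, hZ, hZa, hZa', -⟩ := flowA ha hT4 (hfm 2) (hev 2)
  obtain ⟨Vo, Vot, Voy, hV⟩ := flowO ha (hUk 0)
  obtain ⟨W, Wt, Wy, hW⟩ := flowO ha (hUk 2)
  have ya : ∀ {y : ℝ}, y ∈ Icc (-a) a → |y| < 2 * a := fun hy =>
    (abs_le.2 hy).trans_lt (by linarith)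
  have hXt : ContinuousOn (fun q : ℝ × ℝ => Xt q.1 q.2) (Dom (2 * a)) := tcont hX.smooth hX.dt
  have hZt : ContinuousOn (fun q : ℝ × ℝ => Zt q.1 q.2) (Dom (2 * a)) := tcont hZ.smooth hZ.dt
  have hWt : ContinuousOn (fun q : ℝ × ℝ => Wt q.1 q.2) (Dom (2 * a)) := tcont hW.smooth hW.dt
  have dd : ∀ {F : ℝ → ℝ → ℝ}, ContinuousOn (fun q : ℝ × ℝ => F q.1 q.2) (Dom (2 * a)) →
      ContinuousOn (fun q : ℝ × ℝ => F q.1 q.2) (Ioi 0 ×ˢ Icc (-a) a) := fun h =>
    h.mono fun q hq => ⟨hq.1, ya hq.2⟩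
  -- the two drifts
  have w1 : WF a (Ioi 0) (fun t y => V t y 2 + W t y) (fun t y => Vy t y 2 + Wy t y)
      (fun t y => Vyy t y 2 + Wt t y) :=
    ⟨(cc 2 cV).add (dd hW.smooth.continuousOn), (cc 2 cVy).add (dd hW.ycont),
      (cc 2 cVyy).add (dd hWt),
      fun t ht y hy => (cd 2 (dVy t ht y hy)).add (hW.dy t y ht (ya (Ioo_subset_Icc_self hy))),
      fun t ht y hy => (cd 2 (dVyy t ht y hy)).add (hW.dyy t y ht (ya (Ioo_subset_Icc_self hy)))⟩
  have w2 : WF a (Ioi 0) (fun t y => V t y 0) (fun t y => Vy t y 0) (fun t y => Vyy t y 0) :=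
    ⟨cc 0 cV, cc 0 cVy, cc 0 cVyy, fun t ht y hy => cd 0 (dVy t ht y hy),
      fun t ht y hy => cd 0 (dVyy t ht y hy)⟩
  obtain ⟨A, At, Ay, Ayy, Az, Azz, hA⟩ := h1 a b (T / 2) ha hb hT2 _ Vo Vot Voy _ _ _ hV w1
  obtain ⟨B, Bt, By, Byy, Bx, Bxx, hB⟩ := h1 a b T ha hb hT _ W Wt Wy _ _ _ hW w2
  -- pull back of continuity
  have pi : ∀ {F : ℝ → ℝ → ℝ}, ContinuousOn (fun q : ℝ × ℝ => F q.1 q.2) (Ioi 0 ×ˢ Icc (-a) a) →
      ContinuousOn (fun x : ℝ × ℝ × ℝ => F x.1 x.2.1) (Ioi 0 ×ˢ (Icc (-a) a ×ˢ Icc (-b) b)) := by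
    intro F hF
    have h1 : Continuous fun z : ℝ × ℝ × ℝ => ((z.1, z.2.1) : ℝ × ℝ) := by fun_prop
    exact hF.comp (t := Ioi 0 ×ˢ Icc (-a) a) h1.continuousOn fun z hz => ⟨hz.1, hz.2.1⟩
  have pa : ∀ {F : ℝ → ℝ → ℝ}, ContinuousOn (fun q : ℝ × ℝ => F q.1 q.2) (Dom (2 * a)) →
      ContinuousOn (fun x : ℝ × ℝ × ℝ => F x.1 x.2.1) (Ioi 0 ×ˢ (Icc (-a) a ×ˢ Icc (-b) b)) :=
    fun h => pi (dd h)
  have pg : ∀ {F : ℝ → ℝ}, ContDiffOn ℝ ((⊤ : ℕ∞) : WithTop ℕ∞) F (Ioi 0) →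
      ContinuousOn (fun x : ℝ × ℝ × ℝ => F x.1) (Ioi 0 ×ˢ (Icc (-a) a ×ˢ Icc (-b) b)) := by
    intro F hF
    exact hF.continuousOn.comp (t := Ioi 0) continuous_fst.continuousOn fun z hz => hz.1
  have cX := pa hX.smooth.continuousOn
  have cXt := pa hXt
  have cXy := pa hX.ycont
  have cZ := pa hZ.smooth.continuousOn
  have cZt := pa hZt
  have cZy := pa hZ.ycont
  have cg := pg hX.gsmooth
  have ck := pg hZ.gsmooth
  have cXyy : ContinuousOn (fun x : ℝ × ℝ × ℝ => Xyy x.1 x.2.1)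
      (Ioi 0 ×ˢ (Icc (-a) a ×ˢ Icc (-b) b)) :=
    (cXt.add cg).congr fun x _ => hX.heat _ _
  have cZyy : ContinuousOn (fun x : ℝ × ℝ × ℝ => Zyy x.1 x.2.1)
      (Ioi 0 ×ˢ (Icc (-a) a ×ˢ Icc (-b) b)) :=
    (cZt.add ck).congr fun x _ => hZ.heat _ _
  have cF := fun m => pi (F := fun t y => V t y m) (cc m cV)
  have cFt := fun m => pi (F := fun t y => Vt t y m) (cc m cVt)
  have cFy := fun m => pi (F := fun t y => Vy t y m) (cc m cVy)
  have cFyy := fun m => pi (F := fun t y => Vyy t y m) (cc m cVyy)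
  -- the scalar fields
  set P : ℝ → ℝ → ℝ → ℝ := fun t y z => V t y 0 + (X t y + A t y z) with hP
  set Pt : ℝ → ℝ → ℝ → ℝ := fun t y z => Vt t y 0 + (Xt t y + At t y z) with hPt
  set Py : ℝ → ℝ → ℝ → ℝ := fun t y z => Vy t y 0 + (Xy t y + Ay t y z) with hPy
  set Pyy : ℝ → ℝ → ℝ → ℝ := fun t y z => Vyy t y 0 + (Xyy t y + Ayy t y z) with hPyy
  set S : ℝ → ℝ → ℝ → ℝ := fun t y x => V t y 2 + (Z t y + B t y x) with hS
  set St : ℝ → ℝ → ℝ → ℝ := fun t y x => Vt t y 2 + (Zt t y + Bt t y x) with hSt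
  set Sy : ℝ → ℝ → ℝ → ℝ := fun t y x => Vy t y 2 + (Zy t y + By t y x) with hSy
  set Syy : ℝ → ℝ → ℝ → ℝ := fun t y x => Vyy t y 2 + (Zyy t y + Byy t y x) with hSyy
  set O3 : ℝ → ℝ → ℝ → ℝ := fun _ _ _ => 0 with hO3
  have cP := (cF 0).add (cX.add hA.c)
  have cPt := (cFt 0).add (cXt.add hA.ct)
  have cPy := (cFy 0).add (cXy.add hA.cy)
  have cPyy := (cFyy 0).add (cXyy.add hA.cyy)
  have cS := (cF 2).add (cZ.add hB.c)
  have cSt := (cFt 2).add (cZt.add hB.ct)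
  have cSy := (cFy 2).add (cZy.add hB.cy)
  have cSyy := (cFyy 2).add (cZyy.add hB.cyy)
  have c0 : ContinuousOn (fun x : ℝ × ℝ × ℝ => O3 x.1 x.2.1 x.2.2)
      (Ioi 0 ×ˢ (Icc (-a) a ×ˢ Icc (-b) b)) := continuousOn_const
  set u : ℝ → Sp 3 → Sp 3 := fun t x => vec (P t (x 1) (x 2)) (S t (x 1) (x 0)) with hu
  set ut : ℝ → Sp 3 → Sp 3 := fun t x => vec (Pt t (x 1) (x 2)) (St t (x 1) (x 0)) with hut
  set D : Fin 3 → ℝ → Sp 3 → Sp 3 := ![fun t x => vec (O3 t (x 1) (x 2)) (Bx t (x 1) (x 0)),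
    fun t x => vec (Py t (x 1) (x 2)) (Sy t (x 1) (x 0)),
    fun t x => vec (Az t (x 1) (x 2)) (O3 t (x 1) (x 0))] with hD
  set DD : Fin 3 → ℝ → Sp 3 → Sp 3 := ![fun t x => vec (O3 t (x 1) (x 2)) (Bxx t (x 1) (x 0)),
    fun t x => vec (Pyy t (x 1) (x 2)) (Syy t (x 1) (x 0)),
    fun t x => vec (Azz t (x 1) (x 2)) (O3 t (x 1) (x 0))] with hDD
  set p : ℝ → Sp 3 → ℝ := fun t x => (G t 0 + g t) * x 0 + (G t 2 + k t) * x 2 with hp
  set dp : ℝ → Sp 3 → Sp 3 := fun t _ => vec (G t 0 + g t) (G t 2 + k t) with hdp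
  -- vanishing
  have hX0 : ∀ t, T / 4 ≤ t → ∀ y, X t y = 0 := fun t ht y => hX.zero t y ht
  have hZ0 : ∀ t, T / 4 ≤ t → ∀ y, Z t y = 0 := fun t ht y => hZ.zero t y ht
  have hg0 : ∀ t, T ≤ t → g t = 0 := by
    intro t ht
    have t1 : 0 < t := hT.trans_le ht
    have h5 : Xt t 0 = 0 := by
      have h6 := hX.dt t 0 t1 (by rw [abs_zero]; positivity)
      have h7 : (fun s => X s 0) =ᶠ[𝓝 t] fun _ => (0 : ℝ) := by
        filter_upwards [Ioi_mem_nhds (show T / 4 < t by linarith)] with s hs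
        exact hX0 s (le_of_lt hs) 0
      exact h6.unique ((hasDerivAt_const t (0 : ℝ)).congr_of_eventuallyEq h7)
    have h6 : ∀ y, |y| < 2 * a → Xy t y = 0 := by
      intro y hy
      have h1 := hX.dy t y t1 hy
      have h2 : (fun v => X t v) = fun _ => 0 := funext fun v => hX0 t (by linarith) v
      rw [h2] at h1
      exact h1.unique (hasDerivAt_const y (0 : ℝ))
    have h7 : Xyy t 0 = 0 := by
      have h8 := hX.dyy t 0 t1 (by rw [abs_zero]; positivity)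
      have h9 : (fun v => Xy t v) =ᶠ[𝓝 0] fun _ => (0 : ℝ) := by
        filter_upwards [Ioo_mem_nhds (show -(2 * a) < 0 by linarith) (show 0 < 2 * a by linarith)]
          with s hs
        exact h6 s (abs_lt.2 hs)
      exact h8.unique ((hasDerivAt_const 0 (0 : ℝ)).congr_of_eventuallyEq h9)
    have := hX.heat t 0
    linarith
  have hk0 : ∀ t, T ≤ t → k t = 0 := by
    intro t ht
    have t1 : 0 < t := hT.trans_le ht
    have h5 : Zt t 0 = 0 := by
      have h6 := hZ.dt t 0 t1 (by rw [abs_zero]; positivity)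
      have h7 : (fun s => Z s 0) =ᶠ[𝓝 t] fun _ => (0 : ℝ) := by
        filter_upwards [Ioi_mem_nhds (show T / 4 < t by linarith)] with s hs
        exact hZ0 s (le_of_lt hs) 0
      exact h6.unique ((hasDerivAt_const t (0 : ℝ)).congr_of_eventuallyEq h7)
    have h6 : ∀ y, |y| < 2 * a → Zy t y = 0 := by
      intro y hy
      have h1 := hZ.dy t y t1 hy
      have h2 : (fun v => Z t v) = fun _ => 0 := funext fun v => hZ0 t (by linarith) v
      rw [h2] at h1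
      exact h1.unique (hasDerivAt_const y (0 : ℝ))
    have h7 : Zyy t 0 = 0 := by
      have h8 := hZ.dyy t 0 t1 (by rw [abs_zero]; positivity)
      have h9 : (fun v => Zy t v) =ᶠ[𝓝 0] fun _ => (0 : ℝ) := by
        filter_upwards [Ioo_mem_nhds (show -(2 * a) < 0 by linarith) (show 0 < 2 * a by linarith)]
          with s hs
        exact h6 s (abs_lt.2 hs)
      exact h8.unique ((hasDerivAt_const 0 (0 : ℝ)).congr_of_eventuallyEq h9)
    have := hZ.heat t 0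
    linarith
  have hbox : ∀ {x : Sp 3}, x ∈ box a b → x 1 ∈ Icc (-a) a ∧ x 0 ∈ Icc (-b) b ∧ x 2 ∈ Icc (-b) b :=
    fun hx => ⟨abs_le.1 hx.1, abs_le.1 hx.2.1, abs_le.1 hx.2.2⟩
  have hobox : ∀ {x : Sp 3}, x ∈ obox a b →
      x 1 ∈ Ioo (-a) a ∧ x 0 ∈ Ioo (-b) b ∧ x 2 ∈ Ioo (-b) b :=
    fun hx => ⟨abs_lt.1 hx.1, abs_lt.1 hx.2.1, abs_lt.1 hx.2.2⟩
  have cD : ∀ i, ContinuousOn (fun z : ℝ × Sp 3 => D i z.1 z.2) (Ioi 0 ×ˢ box a b) := by
    intro i
    fin_cases i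
    · exact cont_field c0 hB.cz
    · exact cont_field cPy cSy
    · exact cont_field hA.cz c0
  -- the pressure gradient
  have hgk : ∀ (m : Fin 3) {f : ℝ → ℝ}, ContDiffOn ℝ ((⊤ : ℕ∞) : WithTop ℕ∞) f (Ioi 0) →
      ContinuousOn (fun z : ℝ × Sp 3 => G z.1 m + f z.1) (Ioi 0 ×ˢ box a b) := by
    intro m f hf
    have e1 : ContinuousOn (fun t : ℝ => G t m + f t) (Ioi 0) :=
      ((hproj m).comp_continuousOn cG).add hf.continuousOn
    exact e1.comp (t := Ioi 0) continuous_fst.continuousOn fun z hz => hz.1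
  refine ⟨u, p, ut, D, DD, dp, cont_field cP cS, ?_, cont_field cPt cSt, cD, ?_, ?_, ?_, ?_, ?_,
    ?_, ?_, ?_, ?_, ?_, ?_, ?_⟩
  · -- continuity of the pressure
    exact ((hgk 0 hX.gsmooth).mul ((hproj 0).comp continuous_snd).continuousOn).add
      ((hgk 2 hZ.gsmooth).mul ((hproj 2).comp continuous_snd).continuousOn)
  · intro i
    fin_cases i
    · exact cont_field c0 hB.czz
    · exact cont_field cPyy cSyy
    · exact cont_field hA.czz c0
  · exact vec_cont (hgk 0 hX.gsmooth) (hgk 2 hZ.gsmooth)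
  · -- time derivative
    intro t ht x hx
    obtain ⟨q1, q0, q2⟩ := hobox hx
    have r1 := Ioo_subset_Icc_self q1
    have r0 := Ioo_subset_Icc_self q0
    have r2 := Ioo_subset_Icc_self q2
    refine vec_hasDeriv ((cd 0 (dVt t ht _ q1)).add
      ((hX.dt t _ ht (ya r1)).add (hA.dt t ht _ r1 _ r2))) ?_
    exact (cd 2 (dVt t ht _ q1)).add ((hZ.dt t _ ht (ya r1)).add (hB.dt t ht _ r1 _ r0))
  · -- first derivatives
    intro t ht x hx i
    obtain ⟨q1, q0, q2⟩ := hobox hx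
    have r1 := Ioo_subset_Icc_self q1
    have r0 := Ioo_subset_Icc_self q0
    have r2 := Ioo_subset_Icc_self q2
    fin_cases i
    · refine line0 (p := P t) (s := S t) ?_
      exact ((hB.dz t ht _ r1 _ q0).const_add (Z t (x 1))).const_add (V t (x 1) 2)
    · refine line1 (p := P t) (s := S t) ?_ ?_
      · exact (cd 0 (dVy t ht _ q1)).add ((hX.dy t _ ht (ya r1)).add (hA.dy t ht _ q1 _ r2))
      · exact (cd 2 (dVy t ht _ q1)).add ((hZ.dy t _ ht (ya r1)).add (hB.dy t ht _ q1 _ r0))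
    · refine line2 (p := P t) (s := S t) ?_
      exact ((hA.dz t ht _ r1 _ q2).const_add (X t (x 1))).const_add (V t (x 1) 0)
  · -- second derivatives
    intro t ht x hx i
    obtain ⟨q1, q0, q2⟩ := hobox hx
    have r1 := Ioo_subset_Icc_self q1
    have r0 := Ioo_subset_Icc_self q0
    have r2 := Ioo_subset_Icc_self q2
    fin_cases i
    · refine line0 (p := O3 t) (s := Bx t) ?_
      exact hB.dzz t ht _ r1 _ q0
    · refine line1 (p := Py t) (s := Sy t) ?_ ?_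
      · exact (cd 0 (dVyy t ht _ q1)).add ((hX.dyy t _ ht (ya r1)).add (hA.dyy t ht _ q1 _ r2))
      · exact (cd 2 (dVyy t ht _ q1)).add ((hZ.dyy t _ ht (ya r1)).add (hB.dyy t ht _ q1 _ r0))
    · refine line2 (p := Az t) (s := O3 t) ?_
      exact hA.dzz t ht _ r1 _ q2
  · -- pressure
    intro t ht x hx i
    have h0 : HasDerivAt (fun r : ℝ => x 0 + r) 1 0 := (hasDerivAt_id _).const_add (x 0)
    have h2 : HasDerivAt (fun r : ℝ => x 2 + r) 1 0 := (hasDerivAt_id _).const_add (x 2)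
    fin_cases i
    · have h := ((h0.const_mul (G t 0 + g t)).add_const ((G t 2 + k t) * x 2))
      rw [mul_one] at h
      refine h.congr_of_eventuallyEq (Eventually.of_forall fun r => ?_)
      simp [hp]
    · have h := hasDerivAt_const (0 : ℝ) ((G t 0 + g t) * x 0 + (G t 2 + k t) * x 2)
      refine h.congr_of_eventuallyEq (Eventually.of_forall fun r => ?_)
      simp [hp]
    · have h := ((h2.const_mul (G t 2 + k t)).const_add ((G t 0 + g t) * x 0))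
      rw [mul_one] at h
      refine h.congr_of_eventuallyEq (Eventually.of_forall fun r => ?_)
      simp [hp]
  · -- momentum
    intro t ht x hx
    obtain ⟨r1, r0, r2⟩ := hbox hx
    have hpA := hA.pde t ht _ r1 _ r2
    have hpB := hB.pde t ht _ r1 _ r0
    have hXh := hX.heat t (x 1)
    have hZh := hZ.heat t (x 1)
    have hV0 : Vt t (x 1) 0 + G t 0 = Vyy t (x 1) 0 := congrFun (congrArg (fun v : Sp 3 => (v : Fin 3 → ℝ)) (hVeq t ht _ r1)) 0
    have hV2 : Vt t (x 1) 2 + G t 2 = Vyy t (x 1) 2 := congrFun (congrArg (fun v : Sp 3 => (v : Fin 3 → ℝ)) (hVeq t ht _ r1)) 2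
    have k1 : (V t (x 1) 2 + (Z t (x 1) + B t (x 1) (x 0))) * Az t (x 1) (x 2) =
        (V t (x 1) 2 + W t (x 1)) * Az t (x 1) (x 2) := by
      rcases le_or_gt t (T / 4) with q | q
      · rw [(hA.early t ht (by rw [e24]; exact q) _ r1 _ r2).2.2]
        ring
      · rcases le_or_gt t (T / 2) with q' | q'
        · rw [hZ0 t q.le, (hB.early t ht q' _ r1 _ r0).1]
          ring
        · rw [(hA.late t q'.le _ r1 _ r2).2.2]
          ring
    have k2 : (V t (x 1) 0 + (X t (x 1) + A t (x 1) (x 2))) * Bx t (x 1) (x 0) =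
        V t (x 1) 0 * Bx t (x 1) (x 0) := by
      rcases le_or_gt t (T / 2) with q | q
      · rw [(hB.early t ht q _ r1 _ r0).2.2]
        ring
      · rw [hX0 t (by linarith), (hA.late t q.le _ r1 _ r2).1]
        ring
    have hsum : ∀ (F : Fin 3 → Sp 3), ∑ i, F i = F 0 + F 1 + F 2 := fun F => Fin.sum_univ_three F
    rw [hsum, hsum]
    ext m
    fin_cases m
    · show Vt t (x 1) 0 + (Xt t (x 1) + At t (x 1) (x 2)) +
        ((V t (x 1) 0 + (X t (x 1) + A t (x 1) (x 2))) * 0 +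
        0 * (Vy t (x 1) 0 + (Xy t (x 1) + Ay t (x 1) (x 2))) +
        (V t (x 1) 2 + (Z t (x 1) + B t (x 1) (x 0))) * Az t (x 1) (x 2)) -
        (0 + (Vyy t (x 1) 0 + (Xyy t (x 1) + Ayy t (x 1) (x 2))) + Azz t (x 1) (x 2)) +
        (G t 0 + g t) = 0
      rw [k1]
      linarith
    · show (0 : ℝ) + ((V t (x 1) 0 + (X t (x 1) + A t (x 1) (x 2))) * 0 + 0 * 0 +
        (V t (x 1) 2 + (Z t (x 1) + B t (x 1) (x 0))) * 0) - (0 + 0 + 0) + 0 = 0
      ring
    · show Vt t (x 1) 2 + (Zt t (x 1) + Bt t (x 1) (x 0)) +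
        ((V t (x 1) 0 + (X t (x 1) + A t (x 1) (x 2))) * Bx t (x 1) (x 0) +
        0 * (Vy t (x 1) 2 + (Zy t (x 1) + By t (x 1) (x 0))) +
        (V t (x 1) 2 + (Z t (x 1) + B t (x 1) (x 0))) * 0) -
        (Bxx t (x 1) (x 0) + (Vyy t (x 1) 2 + (Zyy t (x 1) + Byy t (x 1) (x 0))) + 0) +
        (G t 2 + k t) = 0
      rw [k2]
      linarith
  · -- divergence
    intro t _ x _
    rw [Fin.sum_univ_three]
    show (0 : ℝ) + 0 + 0 = 0
    ring
  · -- walls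
    intro t ht x hx hw
    obtain ⟨r1, r0, r2⟩ := hbox hx
    have h1 : x 1 = a ∨ x 1 = -a := by
      rcases abs_choice (x 1) with h3 | h3
      · left
        rw [← h3, hw]
      · right
        rw [← hw, h3, neg_neg]
    have h2 : X t (x 1) = 0 ∧ Z t (x 1) = 0 ∧ B t (x 1) (x 0) = 0 ∧ A t (x 1) (x 2) = 0 := by
      rcases h1 with h3 | h3
      · rw [h3]
        exact ⟨hXa t, hZa t, (hB.wall t ht _ r0).1, (hA.wall t ht _ r2).1⟩
      · rw [h3]
        exact ⟨hXa' t, hZa' t, (hB.wall t ht _ r0).2, (hA.wall t ht _ r2).2⟩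
    show vec (V t (x 1) 0 + (X t (x 1) + A t (x 1) (x 2)))
      (V t (x 1) 2 + (Z t (x 1) + B t (x 1) (x 0))) = V t (x 1)
    rw [h2.1, h2.2.1, h2.2.2.1, h2.2.2.2, add_zero, add_zero, add_zero]
    ext m
    fin_cases m
    · rfl
    · exact (hV1 t (x 1)).symm
    · rfl
  · -- the target is reached
    intro t ht x hx
    obtain ⟨r1, r0, r2⟩ := hbox hx
    constructor
    · show vec (V t (x 1) 0 + (X t (x 1) + A t (x 1) (x 2)))
        (V t (x 1) 2 + (Z t (x 1) + B t (x 1) (x 0))) = V t (x 1)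
      rw [hX0 t (by linarith), hZ0 t (by linarith), (hB.late t ht _ r1 _ r0).1,
        (hA.late t (by linarith) _ r1 _ r2).1, add_zero, add_zero, add_zero]
      ext m
      fin_cases m
      · rfl
      · exact (hV1 t (x 1)).symm
      · rfl
    · show (G t 0 + g t) * x 0 + (G t 2 + k t) * x 2 = G t 0 * x 0 + G t 2 * x 2
      rw [hg0 t ht, hk0 t ht, add_zero, add_zero]
  · -- initial data
    have cy : ∀ {F Fy : ℝ → ℝ → ℝ}, (∀ t y, 0 < t → |y| < 2 * a → HasDerivAt (fun v => F t v)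
        (Fy t y) y) → ∀ t, 0 < t → ContinuousOn (F t) (Icc (-a) a) := fun h t ht y hy =>
      (h t y ht (ya hy)).continuousAt.continuousWithinAt
    have cs : ∀ (m : Fin 3) t, 0 < t → ContinuousOn (fun y => V t y m) (Icc (-a) a) := by
      intro m t ht
      exact (cc m cV).comp (f := fun y : ℝ => ((t, y) : ℝ × ℝ)) (by fun_prop)
        fun y hy => ⟨ht, hy⟩
    have hU1m : ∀ m : Fin 3, AEMeasurable (fun y => U₁ y m) (volume.restrict (Icc (-a) a)) :=
      fun m => ((EuclideanSpace.proj m : Sp 3 →L[ℝ] ℝ).continuous.comp_aestronglyMeasurable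
        hU1.aestronglyMeasurable).aemeasurable
    have e0 : ∀ (m : Fin 3) (y : ℝ), U₀ y m = U₁ y m + d y m := by
      intro m y
      show U₀ y m = U₁ y m + (U₀ y m - U₁ y m)
      ring
    have l := h2 a b ha hb U₀ h0 hU (fun t y => V t y 0 + (X t y + Vo t y))
      (fun t y => V t y 2 + (Z t y + W t y))
      (fun t ht => (cs 0 t ht).add ((cy hX.dy t ht).add (cy hV.dy t ht)))
      (fun t ht => (cs 2 t ht).add ((cy hZ.dy t ht).add (cy hW.dy t ht)))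
      (LEnergyT.limSum (hU1m 0) (e0 0) (cs 0) (LEnergyT.limComp 0 hVlim)
        (h3 a (T / 4) ha hT4 _ (hUk 0) X Xt Xy Xyy g Vo Vot Voy hX hV))
      (LEnergyT.limSum (hU1m 2) (e0 2) (cs 2) (LEnergyT.limComp 2 hVlim)
        (h3 a (T / 4) ha hT4 _ (hUk 2) Z Zt Zy Zyy k W Wt Wy hZ hW))
    refine l.congr' ?_
    have hsmall : Ioo (0 : ℝ) (T / 4) ∈ 𝓝[>] (0 : ℝ) := Ioo_mem_nhdsGT hT4
    filter_upwards [hsmall] with t ht
    refine setLIntegral_congr_fun (box_meas a b) fun x hx => ?_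
    obtain ⟨r1, r0, r2⟩ := hbox hx
    show ‖vec (V t (x 1) 0 + (X t (x 1) + Vo t (x 1))) (V t (x 1) 2 + (Z t (x 1) + W t (x 1))) -
      U₀ (x 1)‖ₑ ^ 2 =
      ‖vec (V t (x 1) 0 + (X t (x 1) + A t (x 1) (x 2)))
        (V t (x 1) 2 + (Z t (x 1) + B t (x 1) (x 0))) - U₀ (x 1)‖ₑ ^ 2
    rw [(hA.early t ht.1 (by rw [e24]; exact ht.2.le) _ r1 _ r2).1,
      (hB.early t ht.1 (by linarith [ht.2]) _ r1 _ r0).1]
  · -- energy
    intro T'
    have sub : ∀ {F : ℝ → ℝ≥0∞}, ∫⁻ t in Ioi (0 : ℝ), F t < ⊤ → ∫⁻ t in Ioc 0 T', F t < ⊤ :=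
      fun h => lt_of_le_of_lt (lintegral_mono_set fun t ht => ht.1) h
    refine LEnergyT.tEnergyT hBox ha hb hT4 (T₁ := T') D
      ![Xy, Voy, Zy, Wy, fun t y => Vy t y 0, fun t y => Vy t y 2] cD ?_ ?_ ?_
    · intro i
      fin_cases i
      · exact dd hX.ycont
      · exact dd hV.ycont
      · exact dd hZ.ycont
      · exact dd hW.ycont
      · exact cc 0 cVy
      · exact cc 2 cVy
    · intro i
      fin_cases i
      · exact sub hX.en
      · exact sub hV.en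
      · exact sub hZ.en
      · exact sub hW.en
      · exact LEnergyT.enComp 0 (hVen T')
      · exact LEnergyT.enComp 2 (hVen T')
    · intro t ht ht' x hx
      obtain ⟨r1, r0, r2⟩ := hbox hx
      have e0 : D 0 t x = 0 := by
        show vec 0 (Bx t (x 1) (x 0)) = 0
        rw [(hB.early t ht (by linarith) _ r1 _ r0).2.2, vec_eq]
        simp
      have e2 : D 2 t x = 0 := by
        show vec (Az t (x 1) (x 2)) 0 = 0
        rw [(hA.early t ht (by rw [e24]; exact ht') _ r1 _ r2).2.2, vec_eq]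
        simp
      have e1 : ‖D 1 t x‖ₑ ^ 2 = ‖Vy t (x 1) 0 + (Xy t (x 1) + Voy t (x 1))‖ₑ ^ 2 +
          ‖Vy t (x 1) 2 + (Zy t (x 1) + Wy t (x 1))‖ₑ ^ 2 := by
        have : D 1 t x = vec (Vy t (x 1) 0 + (Xy t (x 1) + Voy t (x 1)))
            (Vy t (x 1) 2 + (Zy t (x 1) + Wy t (x 1))) := by
          show vec (Vy t (x 1) 0 + (Xy t (x 1) + Ay t (x 1) (x 2)))
            (Vy t (x 1) 2 + (Zy t (x 1) + By t (x 1) (x 0))) = _
          rw [(hA.early t ht (by rw [e24]; exact ht') _ r1 _ r2).2.1,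
            (hB.early t ht (by linarith) _ r1 _ r0).2.1]
        rw [this, enorm_sq_eq, Fin.sum_univ_three, vec0, vec1, vec2]
        simp
      rw [Fin.sum_univ_three, e0, e1, e2, Fin.sum_univ_six]
      show _ ≤ 4 * (‖Xy t (x 1)‖ₑ ^ 2 + ‖Voy t (x 1)‖ₑ ^ 2 + ‖Zy t (x 1)‖ₑ ^ 2 +
        ‖Wy t (x 1)‖ₑ ^ 2 + ‖Vy t (x 1) 0‖ₑ ^ 2 + ‖Vy t (x 1) 2‖ₑ ^ 2)
      have three : ∀ p q r : ℝ, ‖p + (q + r)‖ₑ ^ 2 ≤ 4 * (‖q‖ₑ ^ 2 + ‖r‖ₑ ^ 2 + ‖p‖ₑ ^ 2) := by
        intro p q r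
        have n1 := Pool.Agent.H309.DF.LLimAdd.two p (q + r)
        have n2 := Pool.Agent.H309.DF.LLimAdd.two q r
        calc ‖p + (q + r)‖ₑ ^ 2 ≤ 2 * ‖p‖ₑ ^ 2 + 2 * ‖q + r‖ₑ ^ 2 := n1
          _ ≤ 2 * ‖p‖ₑ ^ 2 + 2 * (2 * ‖q‖ₑ ^ 2 + 2 * ‖r‖ₑ ^ 2) := by gcongr
          _ ≤ 4 * ‖p‖ₑ ^ 2 + 2 * (2 * ‖q‖ₑ ^ 2 + 2 * ‖r‖ₑ ^ 2) := by
              gcongr
              norm_num
          _ = 4 * (‖q‖ₑ ^ 2 + ‖r‖ₑ ^ 2 + ‖p‖ₑ ^ 2) := by ring
      rw [enorm_zero, zero_pow (by norm_num), zero_add, add_zero]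
      refine (add_le_add (three _ _ _) (three _ _ _)).trans (le_of_eq ?_)
      ring

end Pool.Agent.H309.DG
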