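import Pool.Agent.H309.DG.Defs
import Pool.Agent.H309.DF.MainB

/-!
# Shear trajectories and the controlled flow
-/

set_option autoImplicit false

open Set Filter Topology MeasureTheory
open scoped ENNReal

namespace Pool.Agent.H309.DG

open Pool.Agent.Q61.NC Pool.Agent.H309.DF

/-- `(0, V (t, x 1))` is a shear flow between the plates `x 1 = ± a` with the pressure
`G t 0 * x 0 + G t 2 * x 2`: for positive times `∂ₜ V + G = ∂_y² V` classically for `|y| ≤ a`, with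
square integrable initial profile `U₁` and locally finite energy. Nothing is required at
`y = ± a` (the plates may move). -/
def Shear (a : ℝ) (V : ℝ → ℝ → Sp 3) (G : ℝ → Sp 3) : Prop :=
  ∃ (U₁ : ℝ → Sp 3) (Vt Vy Vyy : ℝ → ℝ → Sp 3),
    MemLp U₁ 2 (volume.restrict (Icc (-a) a)) ∧
    (∀ t y, V t y 1 = 0) ∧
    ContinuousOn (fun z : ℝ × ℝ => V z.1 z.2) (Ioi 0 ×ˢ Icc (-a) a) ∧
    ContinuousOn (fun z : ℝ × ℝ => Vt z.1 z.2) (Ioi 0 ×ˢ Icc (-a) a) ∧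
    ContinuousOn (fun z : ℝ × ℝ => Vy z.1 z.2) (Ioi 0 ×ˢ Icc (-a) a) ∧
    ContinuousOn (fun z : ℝ × ℝ => Vyy z.1 z.2) (Ioi 0 ×ˢ Icc (-a) a) ∧
    ContinuousOn G (Ioi 0) ∧
    (∀ t, 0 < t → ∀ y ∈ Ioo (-a) a, HasDerivAt (fun s => V s y) (Vt t y) t) ∧
    (∀ t, 0 < t → ∀ y ∈ Ioo (-a) a, HasDerivAt (V t) (Vy t y) y) ∧
    (∀ t, 0 < t → ∀ y ∈ Ioo (-a) a, HasDerivAt (Vy t) (Vyy t y) y) ∧
    (∀ t, 0 < t → ∀ y ∈ Icc (-a) a, Vt t y + G t = Vyy t y) ∧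
    Tendsto (fun t => ∫⁻ y in Icc (-a) a, ‖V t y - U₁ y‖ₑ ^ 2) (𝓝[>] 0) (𝓝 0) ∧
    ∀ T : ℝ, ∫⁻ t in Ioc 0 T, ∫⁻ y in Icc (-a) a, ‖Vy t y‖ₑ ^ 2 < ⊤

/-- `(u, p)` is, for positive times, a classical solution of the Navier-Stokes equations with unit
viscosity in the box between the plates: `ut`, `D i`, `DD i` and `dp i` are the derivatives `∂ₜ u`,
`∂ᵢ u`, `∂ᵢ² u` and `∂ᵢ p`; `u`, `p` and these derivatives are continuous up to the boundary of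
the box. On the plates `x 1 = ± a` the velocity is that of the shear flow `V`; it starts at
`U₀ (x 1)` (in `L²`), has locally finite energy, and from time `T` on `(u, p)` is the shear flow
`V` with its pressure. -/
def SteerC (a b T : ℝ) (U₀ : ℝ → Sp 3) (V : ℝ → ℝ → Sp 3) (G : ℝ → Sp 3)
    (u : ℝ → Sp 3 → Sp 3) (p : ℝ → Sp 3 → ℝ) : Prop :=
  ∃ (ut : ℝ → Sp 3 → Sp 3) (D DD : Fin 3 → ℝ → Sp 3 → Sp 3) (dp : ℝ → Sp 3 → Sp 3),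
    ContinuousOn (fun z : ℝ × Sp 3 => u z.1 z.2) (Ioi 0 ×ˢ box a b) ∧
    ContinuousOn (fun z : ℝ × Sp 3 => p z.1 z.2) (Ioi 0 ×ˢ box a b) ∧
    ContinuousOn (fun z : ℝ × Sp 3 => ut z.1 z.2) (Ioi 0 ×ˢ box a b) ∧
    (∀ i, ContinuousOn (fun z : ℝ × Sp 3 => D i z.1 z.2) (Ioi 0 ×ˢ box a b)) ∧
    (∀ i, ContinuousOn (fun z : ℝ × Sp 3 => DD i z.1 z.2) (Ioi 0 ×ˢ box a b)) ∧
    ContinuousOn (fun z : ℝ × Sp 3 => dp z.1 z.2) (Ioi 0 ×ˢ box a b) ∧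
    (∀ t, 0 < t → ∀ x ∈ obox a b, HasDerivAt (fun s => u s x) (ut t x) t) ∧
    (∀ t, 0 < t → ∀ x ∈ obox a b, ∀ i,
      HasLineDerivAt ℝ (u t) (D i t x) x (EuclideanSpace.single i 1)) ∧
    (∀ t, 0 < t → ∀ x ∈ obox a b, ∀ i,
      HasLineDerivAt ℝ (D i t) (DD i t x) x (EuclideanSpace.single i 1)) ∧
    (∀ t, 0 < t → ∀ x ∈ obox a b, ∀ i,
      HasLineDerivAt ℝ (p t) (dp t x i) x (EuclideanSpace.single i 1)) ∧
    (∀ t, 0 < t → ∀ x ∈ box a b,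
      ut t x + ∑ i, u t x i • D i t x - ∑ i, DD i t x + dp t x = 0) ∧
    (∀ t, 0 < t → ∀ x ∈ box a b, ∑ i, D i t x i = 0) ∧
    (∀ t, 0 < t → ∀ x ∈ box a b, |x 1| = a → u t x = V t (x 1)) ∧
    (∀ t, T ≤ t → ∀ x ∈ box a b, u t x = V t (x 1) ∧ p t x = G t 0 * x 0 + G t 2 * x 2) ∧
    Tendsto (fun t => ∫⁻ x in box a b, ‖u t x - U₀ (x 1)‖ₑ ^ 2) (𝓝[>] 0) (𝓝 0) ∧
    ∀ T' : ℝ, ∫⁻ t in Ioc 0 T', ∫⁻ x in box a b, ∑ i, ‖D i t x‖ₑ ^ 2 < ⊤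

/-- The theorem. -/
def Main : Prop := ∀ a b T : ℝ, 0 < a → 0 < b → 0 < T → ∀ U₀ : ℝ → Sp 3,
  (∀ y, U₀ y 1 = 0) → MemLp U₀ 2 (volume.restrict (Icc (-a) a)) →
  ∀ (V : ℝ → ℝ → Sp 3) (G : ℝ → Sp 3), Shear a V G → ∃ u p, SteerC a b T U₀ V G u p

end Pool.Agent.H309.DG
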